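import Pool.Agent.Q230.IP.St

/-!
# Project IP (helper230), job DAN (helper182): Danskin and Caratheodory
-/

set_option autoImplicit false

namespace Pool.Agent.Q182.IP

open Pool.Agent.Q230.IP Filter Topology Set

/-- Caratheodory's theorem. -/
lemma carath {n : ℕ} {G : Set (Fin n → ℝ)} {x : Fin n → ℝ} (hx : x ∈ convexHull ℝ G) :
    ∃ t : Finset (Fin n → ℝ), (t : Set (Fin n → ℝ)) ⊆ G ∧ t.card ≤ n + 1 ∧
      ∃ w : (Fin n → ℝ) → ℝ, (∀ y ∈ t, 0 ≤ w y) ∧ ∑ y ∈ t, w y = 1 ∧ ∑ y ∈ t, w y • y = x := by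
  rw [convexHull_eq_union] at hx
  simp only [mem_iUnion, exists_prop] at hx
  obtain ⟨t, ht, hai, hxt⟩ := hx
  refine ⟨t, ht, ?_, Finset.mem_convexHull'.1 hxt⟩
  have h1 := hai.card_le_finrank_succ
  have h2 : Module.finrank ℝ (vectorSpan ℝ (Set.range ((↑) : t → Fin n → ℝ))) ≤ n := by
    refine (Submodule.finrank_le _).trans ?_
    simp
  rw [Fintype.card_coe] at h1
  omega

/-- The convex hull of a compact set is compact. -/
lemma cpt_hull {n : ℕ} {G : Set (Fin n → ℝ)} (hG : IsCompact G) :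
    IsCompact (convexHull ℝ G) := by
  rcases G.eq_empty_or_nonempty with h | ⟨g0, hg0⟩
  · rw [h, convexHull_empty]
    exact isCompact_empty
  have h1 : convexHull ℝ G = (fun p : (Fin (n + 1) → ℝ) × (Fin (n + 1) → Fin n → ℝ) =>
      ∑ i, p.1 i • p.2 i) '' (stdSimplex ℝ (Fin (n + 1)) ×ˢ (Set.univ.pi fun _ => G)) := by
    apply Subset.antisymm
    · intro x hx
      obtain ⟨t, ht, htc, w, hw0, hw1, hwx⟩ := carath hx
      obtain ⟨e⟩ : Nonempty (t ↪ Fin (n + 1)) := by
        apply Function.Embedding.nonempty_of_card_le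
        simpa using htc
      have e1 : ∀ (i : Fin (n + 1)), i ∉ range e →
          Function.extend e (fun y : t => w y) (0 : Fin (n + 1) → ℝ) i = 0 := by
        intro i hi
        rw [Function.extend_apply' _ _ _ (by simpa using hi)]
        rfl
      obtain ⟨W, hW⟩ : ∃ W : Fin (n + 1) → ℝ, W = Function.extend e (fun y : t => w y) 0 :=
        ⟨_, rfl⟩
      obtain ⟨Z, hZ⟩ : ∃ Z : Fin (n + 1) → Fin n → ℝ,
          Z = Function.extend e (fun y : t => (y : Fin n → ℝ)) (fun _ => g0) := ⟨_, rfl⟩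
      have e2 : ∀ y : t, W (e y) = w y := fun y => by
        rw [hW]
        exact e.injective.extend_apply _ _ y
      have e3 : ∀ y : t, Z (e y) = y := fun y => by
        rw [hZ]
        exact e.injective.extend_apply _ _ y
      have e4 : ∀ i, i ∉ range e → Z i = g0 := fun i hi => by
        rw [hZ, Function.extend_apply' _ _ _ (by simpa using hi)]
      rw [← hW] at e1
      refine ⟨(W, Z), ⟨⟨fun i => ?_, ?_⟩, fun i _ => ?_⟩, ?_⟩
      · show 0 ≤ W i
        by_cases hi : i ∈ range e
        · obtain ⟨y, rfl⟩ := hi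
          rw [e2]
          exact hw0 y y.2
        · exact (e1 i hi).ge
      · show ∑ i, W i = 1
        rw [← Fintype.sum_of_injective e e.injective (fun y : t => w y) _ e1
          (fun y => (e2 y).symm), ← hw1]
        exact Finset.sum_coe_sort t w
      · show Z i ∈ G
        by_cases hi : i ∈ range e
        · obtain ⟨y, rfl⟩ := hi
          rw [e3]
          exact ht y.2
        · rw [e4 i hi]
          exact hg0
      · show ∑ i, W i • Z i = x
        rw [← Fintype.sum_of_injective e e.injective (fun y : t => w y • (y : Fin n → ℝ)) _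
          (fun i hi => by rw [e1 i hi, zero_smul]) (fun y => by rw [e2, e3]), ← hwx]
        exact Finset.sum_coe_sort t (fun y => w y • y)
    · rintro x ⟨⟨w, z⟩, ⟨hw, hz⟩, rfl⟩
      exact (convex_convexHull ℝ G).sum_mem (fun i _ => hw.1 i) hw.2
        (fun i _ => subset_convexHull ℝ G (hz i (mem_univ i)))
  rw [h1]
  refine ((isCompact_stdSimplex ℝ (Fin (n + 1))).prod (isCompact_univ_pi fun _ => hG)).image ?_
  fun_prop

theorem dan : S_dan := by
  intro n f fx fv x V hf hfx hdx hdv hco hMM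
  obtain ⟨Y, hY⟩ : ∃ Y : Set (Fin n → ℝ), Y = {v | f x v = V} := ⟨_, rfl⟩
  have hYm : ∀ v, v ∈ Y ↔ f x v = V := fun v => by rw [hY]; rfl
  have hfc : ∀ y : Fin n → ℝ, Continuous (f y) := fun y =>
    hf.comp (Continuous.prodMk continuous_const continuous_id)
  have hYc : IsCompact Y := by
    obtain ⟨R, hR⟩ := hco ‖x‖ (V + 1)
    apply (isCompact_closedBall (0 : Fin n → ℝ) R).of_isClosed_subset
    · rw [hY]
      exact isClosed_eq (hfc x) continuous_const
    · intro v hv
      rw [mem_closedBall_zero_iff]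
      by_contra hcon
      push Not at hcon
      have h1 := hR x v le_rfl hcon.le
      rw [(hYm v).1 hv] at h1
      linarith
  have hmin : ∀ v ∈ Y, ∀ l, fv l x v = 0 := by
    intro v hv l
    have h1 : IsLocalMin (fun h : ℝ => f x (Function.update v l h)) (v l) := by
      refine Eventually.of_forall fun h => ?_
      simp only [Function.update_eq_self]
      rw [(hYm v).1 hv]
      exact hMM.1 _
    exact h1.hasDerivAt_eq_zero (hdv x v l)
  obtain ⟨Γ, hΓ⟩ : ∃ Γ : (Fin n → ℝ) → (Fin n → ℝ), Γ = fun v l => fx l x v := ⟨_, rfl⟩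
  have hΓc : Continuous Γ := by
    rw [hΓ]
    exact continuous_pi fun l => (hfx l).comp (Continuous.prodMk continuous_const continuous_id)
  have hGc : IsCompact (Γ '' Y) := hYc.image hΓc
  have h0 : (0 : Fin n → ℝ) ∈ convexHull ℝ (Γ '' Y) := by
    by_contra hcon
    obtain ⟨φ, u, hu0, hu⟩ := geometric_hahn_banach_point_closed (convex_convexHull ℝ (Γ '' Y))
      (cpt_hull hGc).isClosed hcon
    rw [map_zero] at hu0
    obtain ⟨d, hd⟩ : ∃ d : Fin n → ℝ, d = fun l => φ (Pi.single l 1) := ⟨_, rfl⟩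
    have hφ : ∀ g : Fin n → ℝ, φ g = ∑ l, d l * g l := by
      intro g
      have e1 : g = ∑ l, g l • (Pi.single l (1 : ℝ) : Fin n → ℝ) := by
        ext k
        simp [Finset.sum_apply, Pi.single_apply]
      conv_lhs => rw [e1]
      rw [map_sum]
      refine Finset.sum_congr rfl fun l _ => ?_
      rw [map_smul, hd, smul_eq_mul, mul_comm]
    have hpos : ∀ v ∈ Y, u < ∑ l, d l * fx l x v := by
      intro v hv
      have h1 := hu (Γ v) (subset_convexHull ℝ _ ⟨v, hv, rfl⟩)
      rw [hφ, hΓ] at h1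
      exact h1
    -- the sequence
    have hk : ∀ k : ℕ, ∃ v, f (x + (1 / ((k : ℝ) + 1)) • d) v ≤ V := fun k => hMM.2 _
    choose vk hvk using hk
    have hτ : ∀ k : ℕ, 0 < 1 / ((k : ℝ) + 1) := fun k => Nat.one_div_pos_of_nat
    have hτ1 : ∀ k : ℕ, 1 / ((k : ℝ) + 1) ≤ 1 := fun k => by
      rw [div_le_one (by positivity)]
      linarith [(Nat.cast_nonneg k : (0 : ℝ) ≤ k)]
    obtain ⟨R, hR⟩ := hco (‖x‖ + ‖d‖) (V + 1)
    have hb : ∀ k, vk k ∈ Metric.closedBall (0 : Fin n → ℝ) R := by
      intro k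
      rw [mem_closedBall_zero_iff]
      by_contra hcon
      push Not at hcon
      have h1 := hR (x + (1 / ((k : ℝ) + 1)) • d) (vk k) (by
        refine (norm_add_le _ _).trans ?_
        rw [norm_smul, Real.norm_eq_abs, abs_of_pos (hτ k)]
        have := mul_le_mul_of_nonneg_right (hτ1 k) (norm_nonneg d)
        linarith) hcon.le
      have h2 := hvk k
      linarith
    obtain ⟨w, -, ψ, hψ, hw⟩ := (isCompact_closedBall (0 : Fin n → ℝ) R).tendsto_subseq hb
    have hτlim : Tendsto (fun k : ℕ => 1 / (((ψ k : ℕ) : ℝ) + 1)) atTop (𝓝 0) :=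
      tendsto_one_div_add_atTop_nhds_zero_nat.comp hψ.tendsto_atTop
    have hyl : Tendsto (fun k : ℕ => x + (1 / (((ψ k : ℕ) : ℝ) + 1)) • d) atTop (𝓝 x) := by
      have := (tendsto_const_nhds (x := x)).add (hτlim.smul_const d)
      simpa using this
    have hwY : w ∈ Y := by
      rw [hYm]
      apply le_antisymm _ (hMM.1 w)
      have h1 : Tendsto (fun k => f (x + (1 / (((ψ k : ℕ) : ℝ) + 1)) • d) (vk (ψ k))) atTop
          (𝓝 (f x w)) := (hf.tendsto (x, w)).comp (hyl.prodMk_nhds hw)
      exact le_of_tendsto' h1 fun k => hvk (ψ k)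
    -- mean value theorem
    have hmv : ∀ k : ℕ, ∃ h ∈ Ioo (0 : ℝ) (1 / ((k : ℝ) + 1)),
        ∑ l, d l * fx l (x + h • d) (vk k) ≤ 0 := by
      intro k
      have hder : ∀ h : ℝ, HasDerivAt (fun s : ℝ => f (x + s • d) (vk k))
          (∑ l, d l * fx l (x + h • d) (vk k)) h := by
        intro h
        have h1 := hdx (x + h • d) (vk k) d
        rw [← sub_self h] at h1
        have h2 := HasDerivAt.comp_sub_const h h h1
        refine h2.congr_of_eventuallyEq (Eventually.of_forall fun s => ?_)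
        simp only []
        congr 1
        rw [add_assoc, ← add_smul]
        congr 2
        ring
      obtain ⟨h, hh, he⟩ := exists_hasDerivAt_eq_slope (fun s : ℝ => f (x + s • d) (vk k))
        (fun h => ∑ l, d l * fx l (x + h • d) (vk k)) (hτ k)
        (fun s _ => (hder s).continuousAt.continuousWithinAt) (fun s _ => hder s)
      refine ⟨h, hh, ?_⟩
      rw [he]
      apply div_nonpos_of_nonpos_of_nonneg
      · have h1 := hMM.1 (vk k)
        have h2 := hvk k
        simp only [zero_smul, add_zero]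
        linarith
      · have := hτ k
        linarith
    choose hh hh1 hh2 using hmv
    have hlim0 : Tendsto (fun k => hh (ψ k)) atTop (𝓝 0) :=
      squeeze_zero (fun k => (hh1 (ψ k)).1.le) (fun k => (hh1 (ψ k)).2.le) hτlim
    have hyl2 : Tendsto (fun k : ℕ => x + (hh (ψ k)) • d) atTop (𝓝 x) := by
      have := (tendsto_const_nhds (x := x)).add (hlim0.smul_const d)
      simpa using this
    have hlim : Tendsto (fun k => ∑ l, d l * fx l (x + (hh (ψ k)) • d) (vk (ψ k))) atTop
        (𝓝 (∑ l, d l * fx l x w)) := by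
      refine tendsto_finsetSum _ fun l _ => ?_
      exact (((hfx l).tendsto (x, w)).comp (hyl2.prodMk_nhds hw)).const_mul (d l)
    have h3 : ∑ l, d l * fx l x w ≤ 0 := le_of_tendsto' hlim fun k => hh2 (ψ k)
    have h4 := hpos w hwY
    linarith
  obtain ⟨t, ht, htc, w, hw0, hw1, hwx⟩ := carath h0
  have htne : t.Nonempty := by
    by_contra hcon
    rw [Finset.not_nonempty_iff_eq_empty] at hcon
    rw [hcon, Finset.sum_empty] at hw1
    exact zero_ne_one hw1
  obtain ⟨r, hr⟩ : ∃ r, t.card = r + 1 := ⟨t.card - 1, by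
    have := htne.card_pos
    omega⟩
  have hch : ∀ y : t, ∃ v ∈ Y, Γ v = y := fun y => ht y.2
  choose sel hsel1 hsel2 using hch
  obtain ⟨e⟩ : Nonempty (Fin (r + 1) ≃ t) := by
    rw [← hr]
    exact ⟨t.equivFin.symm⟩
  refine ⟨r, by omega, fun i => sel (e i), fun i => w (e i), ?_, fun i => (hYm _).1 (hsel1 _),
    fun i l => hmin _ (hsel1 _) l, ?_, fun l => ?_⟩
  · intro i j hij
    simp only [] at hij
    have h1 := congrArg Γ hij
    rw [hsel2, hsel2] at h1
    exact e.injective (Subtype.ext h1)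
  · rw [← hw1, ← Finset.sum_coe_sort t w]
    exact e.sum_comp (fun y : t => w y)
  · have h1 := congrFun hwx l
    rw [← Finset.sum_coe_sort t (fun y => w y • y), ← e.sum_comp (fun y : t => w y • (y : Fin n → ℝ)),
      Finset.sum_apply] at h1
    refine Eq.trans ?_ h1
    refine Finset.sum_congr rfl fun i _ => ?_
    have h5 : fx l x (sel (e i)) = (e i : Fin n → ℝ) l := by
      rw [← hsel2 (e i), hΓ]
    simp only [Pi.smul_apply, smul_eq_mul]
    rw [h5]

end Pool.Agent.Q182.IP
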