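import Pool.Agent.Q182.IP.RelP

/-!
# Project IP (helper230), job REL (helper182), part 2
-/

set_option autoImplicit false

namespace Pool.Agent.Q182.IP.Rel

open MvPolynomial Pool.Agent.Q230.IP Pool.Agent.H612

/-- Change of the index type. -/
lemma bev_equiv {P Q : Type} [Fintype P] [Fintype Q] {D : ℕ} (e : P ≃ Q)
    (q : (P → Fin D) → ℤ) (y : Q → ℝ) :
    bev (fun a : Q → Fin D => q (a ∘ e)) y = bev q (y ∘ e) := by
  classical
  unfold bev
  refine Fintype.sum_equiv (Equiv.arrowCongr e.symm (Equiv.refl _)) _ _ fun a => ?_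
  have h1 : (Equiv.arrowCongr e.symm (Equiv.refl (Fin D))) a = a ∘ e := by
    funext i
    simp [Equiv.arrowCongr]
  rw [h1]
  congr 1
  exact (e.prod_comp fun i => y i ^ (a i : ℕ)).symm

/-- Names of the parameters for which the system is solved. -/
abbrev BB (m r : ℕ) := Fin (m + 1) ⊕ (Fin (2 * r + 2) ⊕ (Fin m × Fin (r + 1)))

/-- The position of a solved parameter. -/
def bt {m r T : ℕ} (hr : r ≤ m + 1) (t : Fin T) : BB m r → PI (m + 1) T
  | Sum.inl l => Sum.inl l
  | Sum.inr (Sum.inl j) => Sum.inr (Sum.inl (t, Fin.castLE (by omega) j))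
  | Sum.inr (Sum.inr (l, j)) => Sum.inr (Sum.inr (t, (l.succ, Fin.castLE (by omega) j)))

lemma bt_inj {m r T : ℕ} (hr : r ≤ m + 1) (t : Fin T) : Function.Injective (bt hr t) := by
  rintro (l | j | ⟨l, j⟩) (l' | j' | ⟨l', j'⟩) h
  all_goals simp [bt] at h ⊢
  · exact h
  · exact h
  · exact h

/-- The position of a solved parameter among all parameters. -/
def bet {m r T : ℕ} (hr : r ≤ m + 1) (t : Fin T) (b : BB m r) : Par (m + 1) T :=
  Sum.inr (bt hr t b)

lemma bet_inj {m r T : ℕ} (hr : r ≤ m + 1) (t : Fin T) : Function.Injective (bet hr t) :=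
  fun _ _ h => bt_inj hr t (Sum.inr_injective h)

/-- The other parameters. -/
abbrev RO {m r T : ℕ} (hr : r ≤ m + 1) (t : Fin T) : Type :=
  {i : Par (m + 1) T // i ∉ Set.range (bet hr t)}

/-- All parameters. -/
noncomputable def eqv {m r T : ℕ} (hr : r ≤ m + 1) (t : Fin T) :
    RO hr t ⊕ BB m r ≃ Par (m + 1) T :=
  Equiv.ofBijective (Sum.elim Subtype.val (bet hr t)) (by
    constructor
    · rintro (a | a) (b | b) h
      · exact congrArg Sum.inl (Subtype.ext h)
      · exact (a.2 ⟨b, h.symm⟩).elim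
      · exact (b.2 ⟨a, h⟩).elim
      · exact congrArg Sum.inr (bet_inj hr t h)
    · intro i
      by_cases h : i ∈ Set.range (bet hr t)
      · obtain ⟨b, hb⟩ := h
        exact ⟨Sum.inr b, hb⟩
      · exact ⟨Sum.inl ⟨i, h⟩, rfl⟩)

/-- Names of the equations. -/
abbrev EE (m r : ℕ) := Fin (m + 1) ⊕ ((Fin (r + 1) × Fin (m + 1)) ⊕ Fin (r + 1))

section

variable {m r T : ℕ} (hr : r ≤ m + 1) (t : Fin T)

/-- All variables. -/
abbrev ZZ : Type := RO hr t ⊕ YI (m + 1) r

open Classical in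
/-- The parameters which are not solved for. -/
noncomputable def p0 (z : ZZ hr t → ℝ) (i : Par (m + 1) T) : ℝ :=
  if h : i ∈ Set.range (bet hr t) then 0 else z (Sum.inl ⟨i, h⟩)

/-- The name of `x l`. -/
def ex (l : Fin (m + 1)) : ZZ hr t := Sum.inr (Sum.inl l)

/-- The name of `v i l`. -/
def ev (i : Fin (r + 1)) (l : Fin (m + 1)) : ZZ hr t := Sum.inr (Sum.inr (Sum.inl (i, l)))

/-- The multipliers. -/
noncomputable def lm (z : ZZ hr t → ℝ) : Fin (r + 1) → ℝ :=
  Fin.cases (1 - ∑ i : Fin r, z (Sum.inr (Sum.inr (Sum.inr (Sum.inl i)))))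
    (fun i => z (Sum.inr (Sum.inr (Sum.inr (Sum.inl i)))))

/-- The matrix. -/
noncomputable def MM (z : ZZ hr t → ℝ) (e : EE m r) (b : BB m r) : ℝ :=
  match e with
  | Sum.inl l => basX l (bt hr t b)
  | Sum.inr (Sum.inl (i, l)) => basV l (fun l => z (ev hr t i l)) (bt hr t b)
  | Sum.inr (Sum.inr i) =>
      bas (fun l => z (ex hr t l)) (fun l => z (ev hr t i l)) (bt hr t b)

/-- The right hand side. -/
noncomputable def rh (A : Dat (m + 1)) (z : ZZ hr t → ℝ) (e : EE m r) : ℝ :=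
  match e with
  | Sum.inl l => -∑ i, lm hr t z i * A.FFX (p0 hr t z) l (fun l => z (ex hr t l))
      (fun l => z (ev hr t i l))
  | Sum.inr (Sum.inl (i, l)) => -A.FFV (p0 hr t z) l (fun l => z (ex hr t l))
      (fun l => z (ev hr t i l))
  | Sum.inr (Sum.inr i) => z (Sum.inr (Sum.inr (Sum.inr (Sum.inr ())))) -
      A.FF (p0 hr t z) (fun l => z (ex hr t l)) (fun l => z (ev hr t i l))

lemma P_p0 (i : Par (m + 1) T) : PolyFn 1 1 (fun z => p0 hr t z i) := by
  classical
  unfold p0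
  by_cases h : i ∈ Set.range (bet hr t)
  · simp only [dif_pos h]
    exact PolyFn.zero.mono (Nat.zero_le _) (Nat.zero_le _)
  · simp only [dif_neg h]
    exact PolyFn.coord _

lemma P_lm (i : Fin (r + 1)) : PolyFn 1 (r + 1) (fun z => lm hr t z i) := by
  refine Fin.cases ?_ (fun i => ?_) i
  · have := PolyFn.sum_const (σ := ZZ hr t) (Finset.univ : Finset (Fin r))
      (fun i z => z (Sum.inr (Sum.inr (Sum.inr (Sum.inl i))))) (fun i _ => PolyFn.coord _)
    refine (PolyFn.one.sub this).mono (by simp) ?_ |>.congr fun z => rfl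
    simp [add_comm]
  · exact (PolyFn.coord _).mono (le_refl _) (by omega)

end

lemma LL_facts {n T : ℕ} (hn : 1 ≤ n) (hT : 1 ≤ T) : 1 ≤ LL n T ∧ n ≤ LL n T ∧ T ≤ LL n T ∧
    2 * n + 6 ≤ LL n T ∧ (n + 1) * (n + 1) ≤ LL n T := by
  unfold LL
  have h1 : 2 * n + 2 ≤ T * (2 * n + 2) := Nat.le_mul_of_pos_left _ hT
  have h2 : n * (n + 1) ≤ T * (n * (n + 1)) := Nat.le_mul_of_pos_left _ hT
  have h3 : T ≤ T * (2 * n + 2) := Nat.le_mul_of_pos_right _ (by omega)
  have h4 : n ≤ n * (n + 1) := Nat.le_mul_of_pos_right _ (by omega)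
  refine ⟨by omega, by omega, by omega, by nlinarith, by nlinarith⟩

lemma G_facts {L W C : ℕ} (hL : 1 ≤ L) (hW : 1 ≤ W) (hC : 1 ≤ C) :
    1 ≤ L ^ 3 * W * C ∧ L ≤ L ^ 3 * W * C ∧ C ≤ L ^ 3 * W * C ∧ W ≤ L ^ 3 * W * C ∧
    L * W ≤ L ^ 3 * W * C ∧ L * L ≤ L ^ 3 * W * C ∧ L * L * W ≤ L ^ 3 * W * C := by
  have hL1 : 1 ≤ L ^ 3 := Nat.pow_pos hL
  have hL2 : L ≤ L ^ 3 := Nat.le_self_pow (by norm_num) L
  have hL3 : L * L ≤ L ^ 3 := by
    calc L * L = L ^ 2 := by ring
      _ ≤ L ^ 3 := Nat.pow_le_pow_right hL (by norm_num)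
  have key : ∀ a b c : ℕ, a ≤ L ^ 3 → b ≤ W → c ≤ C → a * b * c ≤ L ^ 3 * W * C :=
    fun a b c h1 h2 h3 => Nat.mul_le_mul (Nat.mul_le_mul h1 h2) h3
  refine ⟨?_, ?_, ?_, ?_, ?_, ?_, ?_⟩
  · simpa using key 1 1 1 hL1 hW hC
  · simpa using key L 1 1 hL2 hW hC
  · simpa using key 1 1 C hL1 hW le_rfl
  · simpa using key 1 W 1 hL1 le_rfl hC
  · simpa using key L W 1 hL2 le_rfl hC
  · simpa using key (L * L) 1 1 hL3 hW hC
  · simpa using key (L * L) W 1 hL3 le_rfl hC

lemma P_MM {m r T C : ℕ} (hr : r ≤ m + 1) (t : Fin T) (hC : 1 ≤ C) (e : EE m r) (b : BB m r) :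
    PolyFn (2 * (m + 1) + 9) (CB (m + 1) T C) (fun z => MM hr t z e b) := by
  have hn : 1 ≤ m + 1 := by omega
  have hT : 1 ≤ T := by
    have := t.2
    omega
  have hU := UB_pos hn hT
  obtain ⟨L1, L2, L3, L4, L5⟩ := LL_facts hn hT
  have hW : 1 ≤ UB (m + 1) T ^ (2 * (m + 1) + 8) := Nat.pow_pos hU
  have hW2 : UB (m + 1) T ^ (2 * (m + 1) + 2) ≤ UB (m + 1) T ^ (2 * (m + 1) + 8) :=
    Nat.pow_le_pow_right hU (by omega)
  obtain ⟨g1, g2, g3, g4, g5, g6, g7⟩ := G_facts L1 hW hC
  have hCB : CB (m + 1) T C = 1000 * (LL (m + 1) T ^ 3 * UB (m + 1) T ^ (2 * (m + 1) + 8) * C) := by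
    unfold CB UB
    ring
  rw [hCB]
  rcases e with l | ⟨i, l⟩ | i
  · exact (P_basX l (bt hr t b)).mono (Nat.zero_le _) (by omega)
  · refine (P_basV (ev hr t i) hn hT l (bt hr t b)).mono (by omega) ?_
    have : (2 * (m + 1) + 3) * UB (m + 1) T ^ (2 * (m + 1) + 2)
        ≤ LL (m + 1) T * UB (m + 1) T ^ (2 * (m + 1) + 8) :=
      Nat.mul_le_mul (by omega) hW2
    omega
  · exact (P_bas (ex hr t) (ev hr t i) hn hT (bt hr t b)).mono (by omega) (by omega)

lemma P_rh {m r T C : ℕ} (A : Dat (m + 1)) (hd : A.P.totalDegree ≤ 4) (hA : nrm A.P ≤ C)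
    (hr : r ≤ m + 1) (t : Fin T) (hC : 1 ≤ C) (e : EE m r) :
    PolyFn (2 * (m + 1) + 9) (CB (m + 1) T C) (fun z => rh hr t A z e) := by
  have hn : 1 ≤ m + 1 := by omega
  have hT : 1 ≤ T := by
    have := t.2
    omega
  have hU := UB_pos hn hT
  obtain ⟨L1, L2, L3, L4, L5⟩ := LL_facts hn hT
  have hW : 1 ≤ UB (m + 1) T ^ (2 * (m + 1) + 8) := Nat.pow_pos hU
  have hW2 : UB (m + 1) T ^ (2 * (m + 1) + 2) ≤ UB (m + 1) T ^ (2 * (m + 1) + 8) :=
    Nat.pow_le_pow_right hU (by omega)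
  have hW6 : UB (m + 1) T ^ (2 * (m + 1) + 6) ≤ UB (m + 1) T ^ (2 * (m + 1) + 8) :=
    Nat.pow_le_pow_right hU (by omega)
  obtain ⟨g1, g2, g3, g4, g5, g6, g7⟩ := G_facts L1 hW hC
  have hCB : CB (m + 1) T C = 1000 * (LL (m + 1) T ^ 3 * UB (m + 1) T ^ (2 * (m + 1) + 8) * C) := by
    unfold CB UB
    ring
  rw [hCB]
  rcases e with l | ⟨i, l⟩ | i
  · have h1 := PolyFn.sum_const (Finset.univ : Finset (Fin (r + 1)))
      (fun i z => lm hr t z i * A.FFX (p0 hr t z) l (fun l => z (ex hr t l))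
        (fun l => z (ev hr t i l)))
      (fun i _ => (P_lm hr t i).mul (P_FFX A (ex hr t) (ev hr t i) (P_p0 hr t) l))
    refine (h1.neg.mono (by omega) ?_).congr fun z => rfl
    rw [Finset.card_univ, Fintype.card_fin]
    calc (r + 1) * ((r + 1) * (12 + LL (m + 1) T))
        = ((r + 1) * (r + 1)) * (12 + LL (m + 1) T) := by ring
      _ ≤ LL (m + 1) T * (12 + LL (m + 1) T) := by
          refine Nat.mul_le_mul_right _ (le_trans ?_ L5)
          exact Nat.mul_le_mul (by omega) (by omega)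
      _ = 12 * LL (m + 1) T + LL (m + 1) T * LL (m + 1) T := by ring
      _ ≤ _ := by omega
  · refine ((P_FFV A (ex hr t) (ev hr t i) hd hA hn hT (P_p0 hr t) l).neg.mono (le_refl _)
      ?_).congr fun z => rfl
    have k1 : T * ((2 * (m + 1) + 6) * UB (m + 1) T ^ (2 * (m + 1) + 6))
        ≤ LL (m + 1) T * LL (m + 1) T * UB (m + 1) T ^ (2 * (m + 1) + 8) := by
      rw [← mul_assoc]
      exact Nat.mul_le_mul (Nat.mul_le_mul L3 L4) hW6
    have k2 : LL (m + 1) T * ((2 * (m + 1) + 3) * UB (m + 1) T ^ (2 * (m + 1) + 2))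
        ≤ LL (m + 1) T * LL (m + 1) T * UB (m + 1) T ^ (2 * (m + 1) + 8) := by
      rw [← mul_assoc]
      exact Nat.mul_le_mul (Nat.mul_le_mul le_rfl (by omega)) hW2
    omega
  · refine (((PolyFn.coord _).sub (P_FF A (ex hr t) (ev hr t i) hd hA hn hT (P_p0 hr t))).mono
      (max_le (by omega) (le_refl _)) ?_).congr fun z => rfl
    have k1 : T * UB (m + 1) T ^ (2 * (m + 1) + 6)
        ≤ LL (m + 1) T * UB (m + 1) T ^ (2 * (m + 1) + 8) := Nat.mul_le_mul L3 hW6
    have k2 : LL (m + 1) T * UB (m + 1) T ^ (2 * (m + 1) + 2)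
        ≤ LL (m + 1) T * UB (m + 1) T ^ (2 * (m + 1) + 8) := Nat.mul_le_mul le_rfl hW2
    omega

/-- The linear decomposition. -/
lemma dec {m r T : ℕ} (hr : r ≤ m + 1) (t : Fin T) (z : ZZ hr t → ℝ) (p : Par (m + 1) T → ℝ)
    (hp : ∀ i, i ∉ Set.range (bet hr t) → p0 hr t z i = p i) (W : PI (m + 1) T → ℝ) :
    ∑ i : PI (m + 1) T, p (Sum.inr i) * W i =
      (∑ i : PI (m + 1) T, p0 hr t z (Sum.inr i) * W i) +
        ∑ b : BB m r, W (bt hr t b) * p (bet hr t b) := by
  classical
  have h1 : ∑ b : BB m r, W (bt hr t b) * p (bet hr t b)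
      = ∑ i : PI (m + 1) T, (p (Sum.inr i) - p0 hr t z (Sum.inr i)) * W i := by
    refine Fintype.sum_of_injective (bt hr t) (bt_inj hr t) _ _ (fun i hi => ?_) fun b => ?_
    · have h2 : (Sum.inr i : Par (m + 1) T) ∉ Set.range (bet hr t) := by
        rintro ⟨b, hb⟩
        exact hi ⟨b, Sum.inr_injective hb⟩
      rw [hp _ h2, sub_self, zero_mul]
    · have h3 : p0 hr t z (Sum.inr (bt hr t b)) = 0 := by
        unfold p0
        rw [dif_pos ⟨b, rfl⟩]
      rw [h3, sub_zero, mul_comm]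
      rfl
  rw [h1, ← Finset.sum_add_distrib]
  refine Finset.sum_congr rfl fun i _ => ?_
  ring

theorem rel (h1 : S_alg) (h2 : S_interp) : S_rel := by
  intro n T A C D hn hC hd hA hD r hr t τ
  obtain ⟨m, rfl⟩ : ∃ m, n = m + 1 := ⟨n - 1, by omega⟩
  classical
  have hT : 1 ≤ T := by
    have := t.2
    omega
  have hY : Fintype.card (YI (m + 1) r) = Fintype.card (BB m r) := by
    simp only [Fintype.card_sum, Fintype.card_prod, Fintype.card_fin, Fintype.card_unit]
    ring
  have hE : Fintype.card (EE m r) = Fintype.card (BB m r) := by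
    simp only [Fintype.card_sum, Fintype.card_prod, Fintype.card_fin]
    ring
  have hPar : Fintype.card (Par (m + 1) T) = LL (m + 1) T := by
    simp [LL]
  have hRB : Fintype.card (RO hr t) + Fintype.card (BB m r) = LL (m + 1) T := by
    rw [← hPar, ← Fintype.card_congr (eqv hr t)]
    exact (Fintype.card_sum (α := RO hr t) (β := BB m r)).symm
  have hB : Fintype.card (BB m r) ≤ (m + 1 + 2) ^ 2 := by
    simp only [Fintype.card_sum, Fintype.card_prod, Fintype.card_fin]
    nlinarith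
  have hCB : 1 ≤ CB (m + 1) T C := by
    unfold CB
    have k1 : 1 ≤ LL (m + 1) T := (LL_facts hn hT).1
    have k2 := UB_pos hn hT
    unfold UB at k2
    exact Nat.mul_pos (Nat.mul_pos (Nat.mul_pos (by norm_num) (Nat.pow_pos k1))
      (Nat.pow_pos k2)) hC
  have hD' : 2 * ((Fintype.card (RO hr t) + Fintype.card (YI (m + 1) r) + 1) *
      (Fintype.card (BB m r) * (2 * (m + 1) + 9) + 1) + 1) ^
      (Fintype.card (RO hr t) + Fintype.card (YI (m + 1) r)) ≤ D := by
    rw [hY, hRB]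
    refine le_trans ?_ hD
    unfold DB
    gcongr
  obtain ⟨q, hq0, hqb, hq⟩ := h1 (RO hr t) (YI (m + 1) r) (BB m r) (EE m r) (2 * (m + 1) + 9)
    (CB (m + 1) T C) D hY hE (by omega) hCB hD' (MM hr t) (rh hr t A)
    (fun e b => P_MM hr t hC e b) (fun e => P_rh A hd hA hr t hC e) τ
  obtain ⟨ee, hee⟩ : ∃ ee : Option (RO hr t ⊕ BB m r) ≃ Option (Par (m + 1) T),
      ee = Equiv.optionCongr (eqv hr t) := ⟨_, rfl⟩
  refine ⟨fun a => q (a ∘ ee), ?_, ?_, ?_⟩
  · intro hcon
    apply hq0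
    funext a
    have h3 := congrFun hcon (a ∘ ee.symm)
    have h4 : (a ∘ ee.symm) ∘ ee = a := by
      funext i
      simp
    simp only [h4] at h3
    exact h3
  · intro a
    refine (hqb _).trans ?_
    rw [hY, hRB]
    unfold HB
    refine Nat.mul_le_mul_left _ (Nat.pow_le_pow_left ?_ _)
    calc (Fintype.card (BB m r) * CB (m + 1) T C) ^ Fintype.card (BB m r)
        ≤ ((m + 1 + 2) ^ 2 * CB (m + 1) T C) ^ Fintype.card (BB m r) :=
          Nat.pow_le_pow_left (Nat.mul_le_mul_right _ hB) _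
      _ ≤ ((m + 1 + 2) ^ 2 * CB (m + 1) T C) ^ ((m + 1 + 2) ^ 2) :=
          Nat.pow_le_pow_right (Nat.mul_pos (by positivity) hCB) hB
  · intro p x v lam V hK
    rw [bev_equiv ee q]
    obtain ⟨z, hz⟩ : ∃ z : ZZ hr t → ℝ, z = Sum.elim (fun i => p i.1) (yv x v lam V) := ⟨_, rfl⟩
    have zx : (fun l => z (ex hr t l)) = x := by
      rw [hz]
      rfl
    have zv : ∀ i, (fun l => z (ev hr t i l)) = v i := by
      intro i
      rw [hz]
      rfl
    have zV : z (Sum.inr (Sum.inr (Sum.inr (Sum.inr ())))) = V := by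
      rw [hz]
      rfl
    have zl : lm hr t z = lam := by
      funext i
      refine Fin.cases ?_ (fun i => ?_) i
      · have h3 := hK.sum
        rw [Fin.sum_univ_succ] at h3
        show 1 - ∑ i : Fin r, z (Sum.inr (Sum.inr (Sum.inr (Sum.inl i)))) = lam 0
        have h4 : ∑ i : Fin r, z (Sum.inr (Sum.inr (Sum.inr (Sum.inl i))))
            = ∑ i : Fin r, lam i.succ := by
          rw [hz]
          rfl
        rw [h4]
        linarith
      · show z (Sum.inr (Sum.inr (Sum.inr (Sum.inl i)))) = lam i.succ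
        rw [hz]
        rfl
    have zp : ∀ i, i ∉ Set.range (bet hr t) → p0 hr t z i = p i := by
      intro i hi
      unfold p0
      rw [dif_neg hi, hz]
      rfl
    have hinl : ∀ i : Fin 3, p0 hr t z (Sum.inl i) = p (Sum.inl i) := by
      intro i
      apply zp
      rintro ⟨b, hb⟩
      exact Sum.inr_ne_inl hb
    have dFF : ∀ v' : Fin (m + 1) → ℝ, A.FF p x v' = A.FF (p0 hr t z) x v' +
        ∑ b : BB m r, bas x v' (bt hr t b) * p (bet hr t b) := by
      intro v'
      unfold Dat.FF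
      rw [dec hr t z p zp, hinl, hinl, hinl]
      ring
    have dFFV : ∀ (l : Fin (m + 1)) (v' : Fin (m + 1) → ℝ), A.FFV p l x v' =
        A.FFV (p0 hr t z) l x v' + ∑ b : BB m r, basV l v' (bt hr t b) * p (bet hr t b) := by
      intro l v'
      unfold Dat.FFV
      rw [dec hr t z p zp, hinl, hinl, hinl]
      ring
    have dFFX : ∀ (l : Fin (m + 1)) (v' : Fin (m + 1) → ℝ), A.FFX p l x v' =
        A.FFX (p0 hr t z) l x v' + ∑ b : BB m r, basX l (bt hr t b) * p (bet hr t b) := by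
      intro l v'
      unfold Dat.FFX
      rw [dec hr t z p zp, hinl, hinl, hinl]
      ring
    have h5 := hq z (fun b => p (bet hr t b)) (fun e => ?_) (fun b' hb' => ?_)
    · rw [← h5]
      congr 1
      funext i
      rw [Function.comp_apply, hee]
      rcases i with _ | i | i
      · show yv x v lam V τ = z (Sum.inr τ)
        rw [hz]
        rfl
      · show p (eqv hr t (Sum.inl i)) = z (Sum.inl i)
        rw [hz]
        rfl
      · rfl
    · -- the equations
      rcases e with l | ⟨i, l⟩ | i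
      · show ∑ b : BB m r, basX l (bt hr t b) * p (bet hr t b) = -∑ i, lm hr t z i *
          A.FFX (p0 hr t z) l (fun l => z (ex hr t l)) (fun l => z (ev hr t i l))
        rw [zx, zl]
        simp only [zv]
        have h6 := hK.gx l
        have h7 : ∑ i, lam i * A.FFX p l x (v i) = ∑ i, lam i * A.FFX (p0 hr t z) l x (v i)
            + (∑ i, lam i) * ∑ b : BB m r, basX l (bt hr t b) * p (bet hr t b) := by
          rw [Finset.sum_mul, ← Finset.sum_add_distrib]
          refine Finset.sum_congr rfl fun i _ => ?_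
          rw [dFFX]
          ring
        rw [hK.sum, one_mul] at h7
        linarith
      · show ∑ b : BB m r, basV l (fun l => z (ev hr t i l)) (bt hr t b) * p (bet hr t b)
          = -A.FFV (p0 hr t z) l (fun l => z (ex hr t l)) (fun l => z (ev hr t i l))
        rw [zx, zv]
        have h6 := hK.gv i l
        rw [dFFV] at h6
        linarith
      · show ∑ b : BB m r, bas (fun l => z (ex hr t l)) (fun l => z (ev hr t i l)) (bt hr t b)
            * p (bet hr t b) = z (Sum.inr (Sum.inr (Sum.inr (Sum.inr ()))))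
            - A.FF (p0 hr t z) (fun l => z (ex hr t l)) (fun l => z (ev hr t i l))
        rw [zx, zv, zV]
        have h6 := hK.val i
        rw [dFF] at h6
        linarith
    · -- injectivity
      have k0 : ∀ l : Fin (m + 1), b' (Sum.inl l) = 0 := by
        intro l
        have h6 := hb' (Sum.inl l)
        have h7 : ∑ b : BB m r, MM hr t z (Sum.inl l) b * b' b = b' (Sum.inl l) := by
          rw [Fintype.sum_sum_type, Fintype.sum_sum_type]
          simp [MM, bt, basX]
        rw [h7] at h6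
        exact h6
      obtain ⟨bb, hbb⟩ : ∃ bb : Fin (m + 1) → Fin (r + 1) → ℝ,
          bb = Fin.cases (fun _ => 0) (fun l j => b' (Sum.inr (Sum.inr (l, j)))) := ⟨_, rfl⟩
      have bb0 : bb 0 = 0 := by
        rw [hbb]
        rfl
      have bbs : ∀ (l : Fin m) j, bb l.succ j = b' (Sum.inr (Sum.inr (l, j))) := by
        intro l j
        rw [hbb]
        rfl
      have h8 := h2 (m + 1) r t (by omega) v hK.sep (fun j => b' (Sum.inr (Sum.inl j))) bb bb0
        (fun i => ?_) (fun i l => ?_)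
      · obtain ⟨h9, h10⟩ := h8
        funext b
        rcases b with l | j | ⟨l, j⟩
        · exact k0 l
        · exact congrFun h9 j
        · rw [← bbs, h10]
          rfl
      · have h6 := hb' (Sum.inr (Sum.inr i))
        have hM : ∀ b, MM hr t z (Sum.inr (Sum.inr i)) b = bas x (v i) (bt hr t b) := by
          intro b
          show bas (fun l => z (ex hr t l)) (fun l => z (ev hr t i l)) (bt hr t b) = _
          rw [zx, zv]
        rw [Fintype.sum_sum_type, Fintype.sum_sum_type] at h6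
        simp only [k0, mul_zero, Finset.sum_const_zero, zero_add, hM] at h6
        rw [Fintype.sum_prod_type] at h6
        have e7 : ∑ l, ∑ j, bb l j * (uu t (v i) ^ (j : ℕ) * v i l) = ∑ l : Fin m,
            ∑ j : Fin (r + 1), b' (Sum.inr (Sum.inr (l, j))) *
              (uu t (v i) ^ (j : ℕ) * v i l.succ) := by
          rw [Fin.sum_univ_succ, bb0]
          simp only [Pi.zero_apply, zero_mul, Finset.sum_const_zero, zero_add, bbs]
        rw [e7]
        refine Eq.trans ?_ h6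
        congr 1
        · refine Finset.sum_congr rfl fun j _ => ?_
          show _ = uu t (v i) ^ (j : ℕ) * _
          ring
        · refine Finset.sum_congr rfl fun l _ => Finset.sum_congr rfl fun j _ => ?_
          show _ = uu t (v i) ^ (j : ℕ) * v i l.succ * _
          ring
      · have h6 := hb' (Sum.inr (Sum.inl (i, l)))
        have hM : ∀ b, MM hr t z (Sum.inr (Sum.inl (i, l))) b = basV l (v i) (bt hr t b) := by
          intro b
          show basV l (fun l => z (ev hr t i l)) (bt hr t b) = _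
          rw [zv]
        rw [Fintype.sum_sum_type, Fintype.sum_sum_type] at h6
        simp only [k0, mul_zero, Finset.sum_const_zero, zero_add, hM] at h6
        rw [Fintype.sum_prod_type] at h6
        have e7 : ∑ l', ∑ j, bb l' j * ((j : ℕ) * (t : ℝ) ^ (l : ℕ) * uu t (v i) ^ ((j : ℕ) - 1) *
            v i l' + if l' = l then uu t (v i) ^ (j : ℕ) else 0) = ∑ l' : Fin m,
            ∑ j : Fin (r + 1), b' (Sum.inr (Sum.inr (l', j))) *
              ((j : ℕ) * (t : ℝ) ^ (l : ℕ) * uu t (v i) ^ ((j : ℕ) - 1) * v i l'.succ +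
                if l'.succ = l then uu t (v i) ^ (j : ℕ) else 0) := by
          rw [Fin.sum_univ_succ, bb0]
          simp only [Pi.zero_apply, zero_mul, Finset.sum_const_zero, zero_add, bbs]
        rw [e7]
        refine Eq.trans ?_ h6
        congr 1
        · refine Finset.sum_congr rfl fun j _ => ?_
          show _ = ((j : ℕ) : ℝ) * (t : ℝ) ^ (l : ℕ) * uu t (v i) ^ ((j : ℕ) - 1) * _
          ring
        · refine Finset.sum_congr rfl fun l' _ => Finset.sum_congr rfl fun j _ => ?_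
          show _ = (((j : ℕ) : ℝ) * (t : ℝ) ^ (l : ℕ) * uu t (v i) ^ ((j : ℕ) - 1) * v i l'.succ +
            if l'.succ = l then uu t (v i) ^ (j : ℕ) else 0) * _
          ring

end Pool.Agent.Q182.IP.Rel
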