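import Pool.Agent.Q230.IP.St
import Pool.Agent.H612.Deg

/-!
# Project IP (helper230), job REL (helper182), part 1: the degrees and norms of the entries
-/

set_option autoImplicit false

namespace Pool.Agent.Q182.IP.Rel

open MvPolynomial Pool.Agent.Q230.IP Pool.Agent.H612

variable {σ : Type} {n T : ℕ}

/-- `n * T ^ n`. -/
def UB (n T : ℕ) : ℕ := n * T ^ n

lemma UB_pos (hn : 1 ≤ n) (hT : 1 ≤ T) : 1 ≤ UB n T :=
  Nat.mul_pos hn (Nat.pow_pos hT)

lemma pow_le_UB (hT : 1 ≤ T) {t : ℕ} (ht : t ≤ T) {l : ℕ} (hl : l ≤ n) :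
    t ^ l ≤ T ^ n := by
  calc t ^ l ≤ T ^ l := Nat.pow_le_pow_left ht l
    _ ≤ T ^ n := Nat.pow_le_pow_right hT hl

lemma Tn_le_UB (hn : 1 ≤ n) : T ^ n ≤ UB n T := Nat.le_mul_of_pos_left _ hn

lemma P_uu (ev : Fin n → σ) (_hn : 1 ≤ n) (hT : 1 ≤ T) {t : ℕ} (ht : t ≤ T) :
    PolyFn 1 (UB n T) (fun z => uu t (fun l => z (ev l))) := by
  have h1 : ∀ l ∈ (Finset.univ : Finset (Fin n)),
      PolyFn 1 (T ^ n) (fun z : σ → ℝ => (t : ℝ) ^ (l : ℕ) * z (ev l)) := by
    intro l _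
    refine (((PolyFn.natCast (t ^ (l : ℕ))).mul (PolyFn.coord (ev l))).mono (le_refl 1) ?_).congr
      fun z => ?_
    · rw [mul_one]
      exact pow_le_UB hT ht l.2.le
    · push_cast
      ring
  refine ((PolyFn.sum_const Finset.univ _ h1).mono (le_refl _) (le_of_eq ?_)).congr fun z => ?_
  · simp [UB]
  · unfold uu
    rfl

lemma P_uupow (ev : Fin n → σ) (hn : 1 ≤ n) (hT : 1 ≤ T) {t : ℕ} (ht : t ≤ T) {j d k : ℕ}
    (hd : j ≤ d) (hk : j ≤ k) :
    PolyFn d (UB n T ^ k) (fun z => uu t (fun l => z (ev l)) ^ j) :=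
  ((P_uu ev hn hT ht).pow j).mono (by omega) (Nat.pow_le_pow_right (UB_pos hn hT) hk)

lemma P_bas (ex ev : Fin n → σ) (hn : 1 ≤ n) (hT : 1 ≤ T) (i : PI n T) :
    PolyFn (2 * n + 2) (UB n T ^ (2 * n + 2))
      (fun z => bas (fun l => z (ex l)) (fun l => z (ev l)) i) := by
  have hU := UB_pos hn hT
  have hU1 : ∀ k, 1 ≤ UB n T ^ k := fun k => Nat.pow_pos hU
  rcases i with l | ⟨t, j⟩ | ⟨t, l, j⟩
  · exact (PolyFn.coord (ex l)).mono (by omega) (hU1 _)
  · exact P_uupow ev hn hT t.2.le (by omega) (by omega)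
  · refine ((P_uupow ev hn hT t.2.le (d := n) (k := 2 * n + 2) (j := j) (by omega)
      (by omega)).mul (PolyFn.coord (ev l))).mono (by omega) (le_of_eq (mul_one _))

lemma P_basV (ev : Fin n → σ) (hn : 1 ≤ n) (hT : 1 ≤ T) (l : Fin n) (i : PI n T) :
    PolyFn (2 * n + 2) ((2 * n + 3) * UB n T ^ (2 * n + 2))
      (fun z => basV l (fun l => z (ev l)) i) := by
  have hU := UB_pos hn hT
  have hU1 : ∀ k, 1 ≤ UB n T ^ k := fun k => Nat.pow_pos hU
  have key : ∀ (t : Fin T) (j : ℕ), j ≤ 2 * n + 1 → PolyFn j (j * UB n T ^ (2 * n + 2))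
      (fun z : σ → ℝ => (j : ℝ) * (t : ℝ) ^ (l : ℕ) *
        uu t (fun l => z (ev l)) ^ (j - 1)) := by
    intro t j hj
    rcases Nat.eq_zero_or_pos j with h0 | h0
    · subst h0
      refine PolyFn.zero.mono (le_refl _) (Nat.zero_le _) |>.congr fun z => ?_
      simp
    · refine ((((PolyFn.natCast j).mul (PolyFn.natCast ((t : ℕ) ^ (l : ℕ)))).mul
        (P_uupow ev hn hT t.2.le (j := j - 1) (d := j) (k := 2 * n + 1) (by omega)
          (by omega))).mono (by omega) ?_).congr fun z => ?_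
      · have h1 := (pow_le_UB hT t.2.le l.2.le).trans (Tn_le_UB (T := T) hn)
        calc j * (t : ℕ) ^ (l : ℕ) * UB n T ^ (2 * n + 1)
            ≤ j * UB n T * UB n T ^ (2 * n + 1) := by gcongr
          _ = j * UB n T ^ (2 * n + 2) := by ring
      · push_cast
        ring
  rcases i with l' | ⟨t, j⟩ | ⟨t, l', j⟩
  · exact (PolyFn.zero.mono (Nat.zero_le _) (Nat.zero_le _)).congr fun z => rfl
  · refine (key t j (by omega)).mono (by omega) ?_
    gcongr
    omega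
  · refine ((((key t j (by omega)).mul (PolyFn.coord (ev l'))).add
      (PolyFn.ite (d := 2 * n + 2) (C := UB n T ^ (2 * n + 2)) (P := l' = l)
        (f := fun z => uu t (fun l => z (ev l)) ^ (j : ℕ)) (g := fun _ => 0)
        (fun _ => P_uupow ev hn hT t.2.le (by omega) (by omega))
        (fun _ => PolyFn.zero.mono (Nat.zero_le _) (Nat.zero_le _)))).mono
          (max_le (by omega) (le_refl _)) ?_).congr fun z => rfl
    have : (j : ℕ) ≤ n := by omega
    calc (j : ℕ) * UB n T ^ (2 * n + 2) * 1 + UB n T ^ (2 * n + 2)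
        = (j + 1) * UB n T ^ (2 * n + 2) := by ring
      _ ≤ (2 * n + 3) * UB n T ^ (2 * n + 2) := Nat.mul_le_mul_right _ (by omega)

lemma P_basX (l : Fin n) (i : PI n T) : PolyFn 0 1 (fun _ : σ → ℝ => basX l i) := by
  rcases i with l' | i
  · exact PolyFn.ite (P := l' = l) (f := fun _ => (1 : ℝ)) (g := fun _ => 0)
      (fun _ => PolyFn.one) (fun _ => PolyFn.zero.mono (le_refl _) (Nat.zero_le _))
  · exact PolyFn.zero.mono (le_refl _) (Nat.zero_le _)

lemma P_aeval (ev : Fin n → σ) {P : MvPolynomial (Fin n) ℤ} {d C : ℕ} (hd : P.totalDegree ≤ d)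
    (hC : nrm P ≤ C) : PolyFn d C (fun z : σ → ℝ => aeval (fun l => z (ev l)) P) :=
  PolyFn.rename ev ⟨P, hd, hC, fun _ => rfl⟩

lemma P_Phi (A : Dat n) (ex ev : Fin n → σ) {C : ℕ} (hd : A.P.totalDegree ≤ 4)
    (hC : nrm A.P ≤ C) :
    PolyFn 4 (4 * n + C) (fun z => A.Phi (fun l => z (ex l)) (fun l => z (ev l))) := by
  have h1 : ∀ l ∈ (Finset.univ : Finset (Fin n)), PolyFn 4 4
      (fun z : σ → ℝ => if A.E l then (z (ev l) - z (ex l)) ^ 2 else 0) := by
    intro l _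
    refine PolyFn.ite (P := A.E l = true) (f := fun z : σ → ℝ => (z (ev l) - z (ex l)) ^ 2)
      (g := fun _ => 0) (fun _ => ?_)
      (fun _ => PolyFn.zero.mono (Nat.zero_le _) (Nat.zero_le _))
    exact (((PolyFn.coord (ev l)).sub (PolyFn.coord (ex l))).pow 2).mono (by simp) (by norm_num)
  refine (((PolyFn.sum_const Finset.univ _ h1).add (P_aeval ev hd hC)).mono (by simp)
    (le_of_eq ?_)).congr fun z => rfl
  simp [mul_comm]

lemma nrm_pderiv {P : MvPolynomial (Fin n) ℤ} {C : ℕ} (hd : P.totalDegree ≤ 4) (hC : nrm P ≤ C)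
    (l : Fin n) : (pderiv l P).totalDegree ≤ 4 ∧ nrm (pderiv l P) ≤ 4 * C := by
  have h1 : DegLE P 4 := degLE_of_totalDegree hd
  refine ⟨(totalDegree_of_degLE (h1.pderiv l)).trans (by norm_num), ?_⟩
  have h2 := RNorm.mν_pderiv RNorm.int P 4 h1 l
  exact h2.trans (Nat.mul_le_mul_left _ hC)

lemma P_PhiV (A : Dat n) (ex ev : Fin n → σ) {C : ℕ} (hd : A.P.totalDegree ≤ 4)
    (hC : nrm A.P ≤ C) (l : Fin n) :
    PolyFn 4 (4 + 4 * C) (fun z => A.PhiV l (fun l => z (ex l)) (fun l => z (ev l))) := by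
  obtain ⟨h1, h2⟩ := nrm_pderiv hd hC l
  refine ((PolyFn.ite (d := 1) (C := 4) (P := A.E l = true)
    (f := fun z : σ → ℝ => 2 * (z (ev l) - z (ex l)))
    (g := fun _ => 0) (fun _ => ?_)
    (fun _ => PolyFn.zero.mono (Nat.zero_le _) (Nat.zero_le _))).add (P_aeval ev h1 h2)).mono
      (by simp) (le_refl _) |>.congr fun z => rfl
  exact (((PolyFn.natCast 2).mul ((PolyFn.coord (ev l)).sub (PolyFn.coord (ex l)))).mono (by simp)
    (by norm_num)).congr fun z => by push_cast; ring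

/-- The function `1 + v ^ 2`. -/
lemma P_sq (ev : Fin n → σ) (o : Fin n) : PolyFn 2 2 (fun z : σ → ℝ => 1 + z (ev o) ^ 2) :=
  (PolyFn.one.add ((PolyFn.coord (ev o)).pow 2)).mono (by simp) (by norm_num)

lemma P_F0 (A : Dat n) (ex ev : Fin n → σ) {C : ℕ} (hd : A.P.totalDegree ≤ 4)
    (hC : nrm A.P ≤ C) (hn : 1 ≤ n) (hT : 1 ≤ T) {r a c : (σ → ℝ) → ℝ} (hr : PolyFn 1 1 r)
    (ha : PolyFn 1 1 a) (hc : PolyFn 1 1 c) :
    PolyFn (2 * n + 9) (2 * (4 * n + C) + T * UB n T ^ (2 * n + 6) + n)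
      (fun z => A.F0 T (r z) (a z) (c z) (fun l => z (ex l)) (fun l => z (ev l))) := by
  have h1 := (ha.mul (P_sq ev A.o)).mul (P_Phi A ex ev hd hC)
  have h2 : PolyFn (1 + (2 * n + 6)) (1 * (T * UB n T ^ (2 * n + 6)))
      (fun z => c z * ∑ t : Fin T, uu t (fun l => z (ev l)) ^ (2 * n + 6)) := by
    refine hc.mul ?_
    have := PolyFn.sum_const (Finset.univ : Finset (Fin T))
      (fun t z => uu t (fun l => z (ev l)) ^ (2 * n + 6))
      (fun t _ => P_uupow ev hn hT t.2.le (le_refl (2 * n + 6)) (le_refl (2 * n + 6)))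
    simpa using this
  have h3 : PolyFn (1 + 4) (1 * n) (fun z => r z * ∑ l, z (ex l) ^ 4) := by
    refine hr.mul ?_
    have := PolyFn.sum_const (Finset.univ : Finset (Fin n))
      (fun l (z : σ → ℝ) => z (ex l) ^ 4) (d := 4) (C := 1)
      (fun l _ => ((PolyFn.coord (ex l)).pow 4).mono (by simp) (by norm_num))
    simpa using this
  refine ((h1.add h2).sub h3).mono ?_ ?_ |>.congr fun z => rfl
  · refine max_le (max_le ?_ ?_) ?_ <;> omega
  · ring_nf
    omega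

lemma P_F0V (A : Dat n) (ex ev : Fin n → σ) {C : ℕ} (hd : A.P.totalDegree ≤ 4)
    (hC : nrm A.P ≤ C) (hn : 1 ≤ n) (hT : 1 ≤ T) {r a c : (σ → ℝ) → ℝ}
    (ha : PolyFn 1 1 a) (hc : PolyFn 1 1 c) (l : Fin n) :
    PolyFn (2 * n + 9) (2 * (4 * n + C) + 2 * (4 + 4 * C)
        + T * ((2 * n + 6) * UB n T ^ (2 * n + 6)))
      (fun z => A.F0V T (r z) (a z) (c z) l (fun l => z (ex l)) (fun l => z (ev l))) := by
  have h1 : PolyFn 5 (2 * (4 * n + C)) (fun z : σ → ℝ => if l = A.o then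
      2 * z (ev A.o) * A.Phi (fun l => z (ex l)) (fun l => z (ev l)) else 0) := by
    refine PolyFn.ite (P := l = A.o)
      (f := fun z : σ → ℝ => 2 * z (ev A.o) * A.Phi (fun l => z (ex l)) (fun l => z (ev l)))
      (g := fun _ => 0) (fun _ => ?_)
      (fun _ => PolyFn.zero.mono (Nat.zero_le _) (Nat.zero_le _))
    exact ((((PolyFn.natCast 2).mul (PolyFn.coord (ev A.o))).mul (P_Phi A ex ev hd hC)).mono
      (by omega) (by omega)).congr fun z => by push_cast; ring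
  have h2 := (P_sq ev A.o).mul (P_PhiV A ex ev hd hC l)
  have h3 := ha.mul (h1.add h2)
  have h4 : PolyFn (1 + (2 * n + 6)) (1 * (T * ((2 * n + 6) * UB n T ^ (2 * n + 6))))
      (fun z => c z * ∑ t : Fin T, (2 * n + 6 : ℕ) * (t : ℝ) ^ (l : ℕ) *
        uu t (fun l => z (ev l)) ^ (2 * n + 5)) := by
    refine hc.mul ?_
    have := PolyFn.sum_const (Finset.univ : Finset (Fin T))
      (fun t z => (2 * n + 6 : ℕ) * (t : ℝ) ^ (l : ℕ) * uu t (fun l => z (ev l)) ^ (2 * n + 5))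
      (d := 2 * n + 6) (C := (2 * n + 6) * UB n T ^ (2 * n + 6))
      (fun t _ => by
        have k1 := ((PolyFn.natCast (σ := σ) (2 * n + 6)).mul
          (PolyFn.natCast ((t : ℕ) ^ (l : ℕ)))).mul
          (P_uupow ev hn hT t.2.le (le_refl (2 * n + 5)) (le_refl (2 * n + 5)))
        refine (k1.mono (by omega) ?_).congr fun z => by push_cast; ring
        have h1 := (pow_le_UB hT t.2.le l.2.le).trans (Tn_le_UB (T := T) hn)
        calc (2 * n + 6) * (t : ℕ) ^ (l : ℕ) * UB n T ^ (2 * n + 5)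
            ≤ (2 * n + 6) * UB n T * UB n T ^ (2 * n + 5) := by gcongr
          _ = (2 * n + 6) * UB n T ^ (2 * n + 6) := by ring)
    simpa using this
  refine (h3.add h4).mono ?_ ?_ |>.congr fun z => rfl
  · refine max_le ?_ (by omega)
    have : max 5 (2 + 4) = 6 := rfl
    rw [this]
    omega
  · rw [one_mul, one_mul]

lemma P_F0X (A : Dat n) (ex ev : Fin n → σ) {r a c : (σ → ℝ) → ℝ} (hr : PolyFn 1 1 r)
    (ha : PolyFn 1 1 a) (l : Fin n) :
    PolyFn 4 12
      (fun z => A.F0X (r z) (a z) (c z) l (fun l => z (ex l)) (fun l => z (ev l))) := by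
  have h1 : PolyFn 1 4 (fun z : σ → ℝ => if A.E l then -2 * (z (ev l) - z (ex l)) else 0) := by
    refine PolyFn.ite (P := A.E l = true) (f := fun z : σ → ℝ => -2 * (z (ev l) - z (ex l)))
      (g := fun _ => 0) (fun _ => ?_)
      (fun _ => PolyFn.zero.mono (Nat.zero_le _) (Nat.zero_le _))
    exact (((PolyFn.natCast 2).mul ((PolyFn.coord (ev l)).sub (PolyFn.coord (ex l)))).neg.mono
      (by simp) (by norm_num)).congr fun z => by push_cast; ring
  have h2 := (ha.mul (P_sq ev A.o)).mul h1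
  have h3 := ((PolyFn.natCast 4).mul hr).mul ((PolyFn.coord (ex l)).pow 3)
  refine (h2.sub h3).mono (by simp) (by norm_num) |>.congr fun z => ?_
  unfold Dat.F0X
  push_cast
  ring

/-- The number of the names of the perturbation parameters. -/
lemma card_PI : Fintype.card (PI n T) = n + (T * (2 * n + 2) + T * (n * (n + 1))) := by
  simp

lemma P_pert {d c : ℕ} {pr : (σ → ℝ) → PI n T → ℝ} (hp : ∀ i, PolyFn 1 1 (fun z => pr z i))
    {b : (σ → ℝ) → PI n T → ℝ} (hb : ∀ i, PolyFn d c (fun z => b z i)) :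
    PolyFn (1 + d) (LL n T * c) (fun z => ∑ i : PI n T, pr z i * b z i) := by
  have := PolyFn.sum_const (Finset.univ : Finset (PI n T)) (fun i z => pr z i * b z i)
    (fun i _ => (hp i).mul (hb i))
  refine this.mono (le_refl _) ?_
  rw [one_mul, Finset.card_univ, card_PI]
  gcongr
  unfold LL
  omega

lemma P_FF (A : Dat n) (ex ev : Fin n → σ) {C : ℕ} (hd : A.P.totalDegree ≤ 4)
    (hC : nrm A.P ≤ C) (hn : 1 ≤ n) (hT : 1 ≤ T) {pr : (σ → ℝ) → Par n T → ℝ}
    (hp : ∀ i, PolyFn 1 1 (fun z => pr z i)) :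
    PolyFn (2 * n + 9) (2 * (4 * n + C) + T * UB n T ^ (2 * n + 6) + n
        + LL n T * UB n T ^ (2 * n + 2))
      (fun z => A.FF (pr z) (fun l => z (ex l)) (fun l => z (ev l))) := by
  refine ((P_F0 A ex ev hd hC hn hT (hp (Sum.inl 0)) (hp (Sum.inl 1)) (hp (Sum.inl 2))).add
    (P_pert (pr := fun z i => pr z (Sum.inr i)) (fun i => hp (Sum.inr i))
      (fun i => P_bas ex ev hn hT i))).mono (max_le (le_refl _) (by omega)) (le_refl _)
        |>.congr fun z => rfl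

lemma P_FFV (A : Dat n) (ex ev : Fin n → σ) {C : ℕ} (hd : A.P.totalDegree ≤ 4)
    (hC : nrm A.P ≤ C) (hn : 1 ≤ n) (hT : 1 ≤ T) {pr : (σ → ℝ) → Par n T → ℝ}
    (hp : ∀ i, PolyFn 1 1 (fun z => pr z i)) (l : Fin n) :
    PolyFn (2 * n + 9) (2 * (4 * n + C) + 2 * (4 + 4 * C)
        + T * ((2 * n + 6) * UB n T ^ (2 * n + 6))
        + LL n T * ((2 * n + 3) * UB n T ^ (2 * n + 2)))
      (fun z => A.FFV (pr z) l (fun l => z (ex l)) (fun l => z (ev l))) := by
  refine ((P_F0V (r := fun z => pr z (Sum.inl 0)) A ex ev hd hC hn hT (hp (Sum.inl 1))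
    (hp (Sum.inl 2)) l).add
    (P_pert (pr := fun z i => pr z (Sum.inr i)) (fun i => hp (Sum.inr i))
      (fun i => P_basV ev hn hT l i))).mono (max_le (le_refl _) (by omega)) (le_refl _)
        |>.congr fun z => rfl

lemma P_FFX (A : Dat n) (ex ev : Fin n → σ) {pr : (σ → ℝ) → Par n T → ℝ}
    (hp : ∀ i, PolyFn 1 1 (fun z => pr z i)) (l : Fin n) :
    PolyFn 4 (12 + LL n T) (fun z => A.FFX (pr z) l (fun l => z (ex l)) (fun l => z (ev l))) := by
  refine ((P_F0X (c := fun z => pr z (Sum.inl 2)) A ex ev (hp (Sum.inl 0))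
    (hp (Sum.inl 1)) l).add
    (P_pert (pr := fun z i => pr z (Sum.inr i)) (fun i => hp (Sum.inr i))
      (fun i => P_basX l i))).mono (by simp) (by simp) |>.congr fun z => rfl

end Pool.Agent.Q182.IP.Rel
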