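import Pool.Agent.Q230.IP.St

/-!
# Project IP (helper230), job ALG1 (helper182): Siegel's lemma for rational functions
-/

set_option autoImplicit false

namespace Pool.Agent.Q182.IP

open MvPolynomial Pool.Agent.Q230.IP Pool.Agent.H612

attribute [local instance] Matrix.seminormedAddCommGroup

theorem coeff_le_nrm {σ : Type} (p : MvPolynomial σ ℤ) (m : σ →₀ ℕ) :
    (p.coeff m).natAbs ≤ nrm p := by
  unfold nrm RNorm.mν
  by_cases h : m ∈ p.support
  · exact Finset.single_le_sum (f := fun i => RNorm.int.ν (p.coeff i))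
      (fun _ _ => Nat.zero_le _) h
  · rw [MvPolynomial.notMem_support_iff.mp h]
    exact Nat.zero_le _

theorem siegel : S_siegel := by
  intro σ I _ _ d C D hIc hC hD f g hf hg
  classical
  obtain ⟨L, hL⟩ : ∃ L, L = Fintype.card σ := ⟨_, rfl⟩
  rw [← hL] at hIc hD ⊢
  obtain ⟨N, hN⟩ : ∃ N, N = (L + 1) * D := ⟨_, rfl⟩
  have hpos : 1 ≤ ((L + 1) * d + 1) ^ L := Nat.one_le_pow _ _ (by omega)
  have hD2 : 2 ≤ D := by omega
  -- functions
  have hsum : ∀ a : I → Fin D, ∑ i, (a i : ℕ) ≤ N := by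
    intro a
    calc ∑ i, (a i : ℕ) ≤ ∑ _i : I, D := Finset.sum_le_sum fun i _ => (a i).2.le
      _ = N := by simp [hIc, hN]
  have hH : ∀ a : I → Fin D, PolyFn (N * d) (C ^ N)
      (fun z => (∏ i, f i z ^ (a i : ℕ)) * g z ^ (N - ∑ i, (a i : ℕ))) := by
    intro a
    have h1 := (PolyFn.prod Finset.univ (fun i z => f i z ^ (a i : ℕ)) (fun i => (a i : ℕ) * d)
      (fun i => C ^ (a i : ℕ)) (fun i _ => (hf i).pow (a i))).mul
      (hg.pow (N - ∑ i, (a i : ℕ)))
    refine h1.mono (le_of_eq ?_) (le_of_eq ?_)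
    · rw [← Finset.sum_mul, ← add_mul, Nat.add_sub_cancel' (hsum a)]
    · rw [Finset.prod_pow_eq_pow_sum, ← pow_add, Nat.add_sub_cancel' (hsum a)]
  choose H hHd hHn hHe using hH
  -- the matrix
  obtain ⟨A, hA⟩ : ∃ A : Matrix (σ → Fin (N * d + 1)) (I → Fin D) ℤ,
      A = fun m a => (H a).coeff (Finsupp.equivFunOnFinite.symm (fun j => (m j : ℕ))) :=
    ⟨_, rfl⟩
  have cα : Fintype.card (σ → Fin (N * d + 1)) = (N * d + 1) ^ L := by
    rw [Fintype.card_fun, Fintype.card_fin, hL]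
  have cβ : Fintype.card (I → Fin D) = D ^ (L + 1) := by
    rw [Fintype.card_fun, Fintype.card_fin, hIc]
  have hab : 2 * (N * d + 1) ^ L ≤ D ^ (L + 1) := by
    have h1 : N * d + 1 ≤ D * ((L + 1) * d + 1) := by
      rw [hN]
      nlinarith
    calc 2 * (N * d + 1) ^ L ≤ 2 * (D * ((L + 1) * d + 1)) ^ L :=
          Nat.mul_le_mul_left _ (Nat.pow_le_pow_left h1 _)
      _ = D ^ L * (2 * ((L + 1) * d + 1) ^ L) := by
          rw [mul_pow]
          ring
      _ ≤ D ^ L * D := Nat.mul_le_mul_left _ hD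
      _ = D ^ (L + 1) := by rw [pow_succ]
  have hpa : 1 ≤ (N * d + 1) ^ L := Nat.one_le_pow _ _ (by omega)
  obtain ⟨q, hq0, hqA, hqn⟩ := Int.Matrix.exists_ne_zero_int_vec_norm_le A
    (by rw [cα, cβ]; omega) (by rw [cα]; omega)
  have hAn : ‖A‖ ≤ (C : ℝ) ^ N := by
    rw [Matrix.norm_le_iff (by positivity)]
    intro m a
    rw [hA, Int.norm_eq_abs]
    have h1 := (coeff_le_nrm (H a)
      (Finsupp.equivFunOnFinite.symm (fun j => ((m j : ℕ))))).trans (hHn a)
    have h2 : ((((H a).coeff (Finsupp.equivFunOnFinite.symm (fun j => (m j : ℕ)))).natAbs : ℕ) : ℝ)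
        ≤ ((C ^ N : ℕ) : ℝ) := by exact_mod_cast h1
    rw [Nat.cast_natAbs] at h2
    push_cast at h2
    exact h2
  have hC1 : (1 : ℝ) ≤ (C : ℝ) ^ N := one_le_pow₀ (by exact_mod_cast hC)
  have hmx : max 1 ‖A‖ ≤ (C : ℝ) ^ N := max_le hC1 hAn
  have hqb : ‖q‖ ≤ (D : ℝ) ^ (L + 1) * (C : ℝ) ^ N := by
    refine hqn.trans ?_
    rw [cα, cβ]
    have hbase : (1 : ℝ) ≤ ((D ^ (L + 1) : ℕ) : ℝ) * max 1 ‖A‖ := by
      have h1 : (1 : ℝ) ≤ ((D ^ (L + 1) : ℕ) : ℝ) := by
        exact_mod_cast Nat.one_le_pow _ _ (by omega)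
      have h2 : (1 : ℝ) ≤ max 1 ‖A‖ := le_max_left _ _
      nlinarith
    have hex : (((N * d + 1) ^ L : ℕ) : ℝ) / (((D ^ (L + 1) : ℕ) : ℝ)
        - (((N * d + 1) ^ L : ℕ) : ℝ)) ≤ 1 := by
      have h3 : (2 : ℝ) * (((N * d + 1) ^ L : ℕ) : ℝ) ≤ ((D ^ (L + 1) : ℕ) : ℝ) := by
        exact_mod_cast hab
      have h4 : (1 : ℝ) ≤ (((N * d + 1) ^ L : ℕ) : ℝ) := by exact_mod_cast hpa
      rw [div_le_one (by linarith)]
      linarith
    calc _ ≤ (((D ^ (L + 1) : ℕ) : ℝ) * max 1 ‖A‖) ^ (1 : ℝ) :=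
          Real.rpow_le_rpow_of_exponent_le hbase hex
      _ = ((D ^ (L + 1) : ℕ) : ℝ) * max 1 ‖A‖ := Real.rpow_one _
      _ ≤ ((D ^ (L + 1) : ℕ) : ℝ) * (C : ℝ) ^ N := by gcongr
      _ = _ := by push_cast; ring
  refine ⟨q, hq0, fun a => ?_, fun z hz => ?_⟩
  · have h1 := (norm_le_pi_norm q a).trans hqb
    rw [Int.norm_eq_abs] at h1
    have h2 : (((q a).natAbs : ℕ) : ℝ) ≤ ((D ^ (L + 1) * C ^ N : ℕ) : ℝ) := by
      rw [Nat.cast_natAbs]
      push_cast
      exact h1
    rw [← hN]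
    exact_mod_cast h2
  · -- the polynomial identity
    have hpoly : ∑ a, MvPolynomial.C (q a) * H a = 0 := by
      ext m
      rw [MvPolynomial.coeff_sum, MvPolynomial.coeff_zero]
      simp only [MvPolynomial.coeff_C_mul]
      by_cases hm : ∀ j, m j < N * d + 1
      · have h3 := congrFun hqA (fun j => (⟨m j, hm j⟩ : Fin (N * d + 1)))
        rw [hA] at h3
        simp only [Matrix.mulVec, dotProduct, Pi.zero_apply] at h3
        have h4 : (Finsupp.equivFunOnFinite.symm (fun j => m j) : σ →₀ ℕ) = m := by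
          ext j
          simp
        rw [h4] at h3
        rw [← h3]
        exact Finset.sum_congr rfl fun a _ => mul_comm _ _
      · push Not at hm
        obtain ⟨j, hj⟩ := hm
        apply Finset.sum_eq_zero
        intro a _
        have h5 : (H a).coeff m = 0 := by
          apply MvPolynomial.coeff_eq_zero_of_totalDegree_lt
          refine lt_of_le_of_lt (hHd a) ?_
          have h6 : m j ≤ ∑ i ∈ m.support, m i := by
            apply Finset.single_le_sum (f := fun i => m i) (fun _ _ => Nat.zero_le _)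
            rw [Finsupp.mem_support_iff]
            omega
          omega
        rw [h5, mul_zero]
    have h7 : ∑ a, (q a : ℝ) * ((∏ i, f i z ^ (a i : ℕ)) * g z ^ (N - ∑ i, (a i : ℕ))) = 0 := by
      have h8 := congrArg (aeval z) hpoly
      rw [map_sum, map_zero] at h8
      rw [← h8]
      refine Finset.sum_congr rfl fun a _ => ?_
      rw [map_mul, hHe a z, algHom_C]
      simp
    have h9 : g z ^ N * bev q (fun i => f i z / g z) = 0 := by
      rw [← h7]
      unfold bev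
      rw [Finset.mul_sum]
      refine Finset.sum_congr (by congr) fun a _ => ?_
      rw [Finset.prod_congr rfl fun i _ => div_pow (f i z) (g z) (a i : ℕ), Finset.prod_div_distrib,
        Finset.prod_pow_eq_pow_sum]
      have h10 : g z ^ N = g z ^ (∑ i, (a i : ℕ)) * g z ^ (N - ∑ i, (a i : ℕ)) := by
        rw [← pow_add, Nat.add_sub_cancel' (hsum a)]
      rw [h10]
      field_simp
    exact (mul_eq_zero.1 h9).resolve_left (pow_ne_zero _ hz)

end Pool.Agent.Q182.IP
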